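import Pool.Agent.H84.SS.Targets

/-!
# A7: a criterion for convergence almost everywhere (MP_352bb5_an)
-/

set_option autoImplicit false

open MeasureTheory Filter Topology Set ProbabilityTheory
open scoped ENNReal ComplexConjugate
open Pool.Agent.H84.SS
open Pool.Agent.H85.RT (avg GoodWeight Good)
open Pool.Agent.H94.RTB (LGood PD)

universe u v

namespace Pool.Agent.H60.SS

theorem pf_CAU : A_CAU.{u} := by
  intro X _ μ _ A _ h
  have key : ∀ δ : ℝ, 0 < δ → ∀ᵐ x ∂μ, ∃ N₀, ∀ N, N₀ ≤ N → ∀ M, N₀ ≤ M →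
      ‖A N x - A M x‖ ≤ 3 * δ := by
    intro δ hδ
    rw [ae_iff]
    refine le_antisymm ?_ zero_le
    refine ENNReal.le_of_forall_pos_le_add fun η hη _ => ?_
    rw [zero_add]
    have hη' : (0 : ℝ) < η := hη
    obtain ⟨V, Q, -, hVQ, hV, hQ⟩ := h (η * δ) (by positivity)
    have h1 := hQ δ hδ
    have h2 : μ.real {x | ∃ᶠ N in atTop, δ < ‖Q N x‖} ≤ η := by
      have h3 : δ * μ.real {x | ∃ᶠ N in atTop, δ < ‖Q N x‖} ≤ δ * η := by linarith
      exact le_of_mul_le_mul_left h3 hδ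
    have h4 : μ {x | ∃ᶠ N in atTop, δ < ‖Q N x‖} ≤ η := by
      rw [Measure.real] at h2
      exact (ENNReal.toReal_le_toReal (measure_ne_top _ _) ENNReal.coe_ne_top).1
        (by rw [ENNReal.coe_toReal]; exact h2)
    refine le_trans (measure_mono_ae ?_) h4
    filter_upwards [hVQ, hV] with x hx hVx hxE
    by_contra hf
    apply hxE
    have hf' : ∀ᶠ N in atTop, ‖Q N x‖ ≤ δ := by
      have : ∀ᶠ N in atTop, ¬ δ < ‖Q N x‖ := not_frequently.1 hf
      filter_upwards [this] with N hN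
      exact not_lt.1 hN
    obtain ⟨l, hl⟩ := hVx
    have hC := Metric.cauchySeq_iff.1 hl.cauchySeq δ hδ
    obtain ⟨N₁, hN₁⟩ := hC
    obtain ⟨N₂, hN₂⟩ := eventually_atTop.1 hf'
    refine ⟨max N₁ N₂, fun N hN M hM => ?_⟩
    have a1 := hN₁ N (le_of_max_le_left hN) M (le_of_max_le_left hM)
    rw [dist_eq_norm] at a1
    have a2 := hN₂ N (le_of_max_le_right hN)
    have a3 := hN₂ M (le_of_max_le_right hM)
    rw [hx N, hx M]
    have e : V N x + Q N x - (V M x + Q M x) = (V N x - V M x) + (Q N x - Q M x) := by ring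
    rw [e]
    have b1 := norm_add_le (V N x - V M x) (Q N x - Q M x)
    have b2 := norm_sub_le (Q N x) (Q M x)
    linarith
  have hall : ∀ᵐ x ∂μ, ∀ k : ℕ, ∃ N₀, ∀ N, N₀ ≤ N → ∀ M, N₀ ≤ M →
      ‖A N x - A M x‖ ≤ 3 * (1 / ((k : ℝ) + 1)) := by
    rw [ae_all_iff]
    exact fun k => key _ (by positivity)
  filter_upwards [hall] with x hx
  refine cauchySeq_tendsto_of_complete ?_
  rw [Metric.cauchySeq_iff]
  intro ε hε
  obtain ⟨k, hk⟩ := exists_nat_one_div_lt (show 0 < ε / 3 by positivity)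
  obtain ⟨N₀, hN₀⟩ := hx k
  refine ⟨N₀, fun m hm n hn => ?_⟩
  rw [dist_eq_norm]
  have := hN₀ m hm n hn
  linarith

end Pool.Agent.H60.SS
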