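import Pool.Agent.H84.SS.Targets

/-!
# M6: the square averages converge almost everywhere (MP_352bb5_an)
-/

set_option autoImplicit false

open MeasureTheory Filter Topology Set ProbabilityTheory
open scoped ENNReal ComplexConjugate
open Pool.Agent.H84.SS
open Pool.Agent.H85.RT (avg GoodWeight Good)
open Pool.Agent.H94.RTB (LGood PD)

universe u v

namespace Pool.Agent.H60.SS

theorem pf_SQA : M_SQA.{u} := by
  intro B w p hw X _ μ _ T f hT hf hf1 s u
  have hall : ∀ᵐ x ∂μ, ∀ q : (ℕ × ℕ) × (ℕ × ℕ), ∃ l : ℂ, Tendsto (fun N =>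
      Pool.Agent.H94.RTB.Av T (fp T f q.1.2 q.2.2)
        (fun n => w (n + q.1.1) * conj (w (n + q.2.1))) N x) atTop (𝓝 l) := by
    rw [ae_all_iff]
    intro q
    refine hw.lin q.1.1 q.2.1 X μ T hT (fp T f q.1.2 q.2.2) ?_ ?_
    · have h1 : Measurable fun x => f (T^[q.1.2] x) := hf.comp (T.measurable.iterate _)
      have h2 : Measurable fun x => f (T^[q.2.2] x) := hf.comp (T.measurable.iterate _)
      exact h1.mul (Complex.continuous_conj.measurable.comp h2)
    · intro x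
      unfold fp
      rw [norm_mul, RCLike.norm_conj]
      exact mul_le_one₀ (hf1 _) (norm_nonneg _) (hf1 _)
  filter_upwards [hall] with x hx
  choose l hl using hx
  refine ⟨(∑ i ∈ s, ∑ j ∈ s, u i * conj (u j) * l (i, j)).re, ?_⟩
  have h1 : Tendsto (fun M : ℕ => ∑ i ∈ s, ∑ j ∈ s, u i * conj (u j) *
      Pool.Agent.H94.RTB.Av T (fp T f i.2 j.2)
        (fun n => w (n + i.1) * conj (w (n + j.1))) M x) atTop
      (𝓝 (∑ i ∈ s, ∑ j ∈ s, u i * conj (u j) * l (i, j))) :=
    tendsto_finsetSum _ fun i _ => tendsto_finsetSum _ fun j _ => (hl (i, j)).const_mul _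
  have h2 := (Complex.continuous_re.tendsto _).comp h1
  refine h2.congr fun M => ?_
  have key : ∀ n : ℕ, (((‖∑ i ∈ s, u i * (w (n + i.1) * f (T^[n + i.2] x))‖ ^ 2 : ℝ)) : ℂ) =
      ∑ i ∈ s, ∑ j ∈ s, u i * conj (u j) * ((w (n + i.1) * conj (w (n + j.1))) *
        fp T f i.2 j.2 (T^[n] x)) := by
    intro n
    rw [Complex.ofReal_pow, ← Complex.mul_conj', map_sum, Finset.sum_mul_sum]
    refine Finset.sum_congr rfl fun i _ => Finset.sum_congr rfl fun j _ => ?_
    have e : ∀ b : ℕ, T^[n + b] x = T^[b] (T^[n] x) := fun b => by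
      rw [add_comm, Function.iterate_add_apply]
    unfold fp
    rw [e i.2, e j.2, map_mul, map_mul]
    ring
  have h3 : (((∑ n ∈ Finset.Icc 1 M,
      ‖∑ i ∈ s, u i * (w (n + i.1) * f (T^[n + i.2] x))‖ ^ 2) / M : ℝ) : ℂ) =
      ∑ i ∈ s, ∑ j ∈ s, u i * conj (u j) *
      Pool.Agent.H94.RTB.Av T (fp T f i.2 j.2)
        (fun n => w (n + i.1) * conj (w (n + j.1))) M x := by
    rw [Complex.ofReal_div, Complex.ofReal_sum, Complex.ofReal_natCast,
      Finset.sum_congr rfl fun n _ => key n, Finset.sum_comm, Finset.sum_div]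
    refine Finset.sum_congr rfl fun i _ => ?_
    rw [Finset.sum_comm, Finset.sum_div]
    refine Finset.sum_congr rfl fun j _ => ?_
    unfold Pool.Agent.H94.RTB.Av
    rw [← Finset.mul_sum]
    ring
  show (∑ i ∈ s, ∑ j ∈ s, u i * conj (u j) *
      Pool.Agent.H94.RTB.Av T (fp T f i.2 j.2)
        (fun n => w (n + i.1) * conj (w (n + j.1))) M x).re = _
  rw [← h3, Complex.ofReal_re]

end Pool.Agent.H60.SS
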